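import Pool.Agent.KS6_65.MP.BaireK

open Set Filter Topology

namespace Pool.Agent.Results.MP_20b9c8_an.AllExponents

/-- A topological dynamical system: a (nonempty) compact metric space with a homeomorphism. -/
structure Sys where
  pt : Type
  [met : MetricSpace pt]
  [cpt : CompactSpace pt]
  [ne : Nonempty pt]
  T : pt ≃ₜ pt

attribute [instance] Sys.met Sys.cpt Sys.ne

/-- Every two-sided orbit is dense. -/
def Sys.Minimal (X : Sys) : Prop := ∀ x : X.pt, Dense (Set.range fun n : ℤ => (X.T ^ n) x)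

/-- The powers of the homeomorphism are equicontinuous. -/
def Sys.Equicont (X : Sys) : Prop := Equicontinuous fun (n : ℤ) (x : X.pt) => (X.T ^ n) x

/-- A factor map. -/
structure Factor (X Y : Sys) where
  map : X.pt → Y.pt
  cont : Continuous map
  surj : Function.Surjective map
  comm : ∀ x, map (X.T x) = Y.T (map x)

/-- Proximal extension. -/
def Factor.Proximal {X Y : Sys} (π : Factor X Y) : Prop :=
  ∀ x x' : X.pt, π.map x = π.map x' → ⨅ n : ℤ, dist ((X.T ^ n) x) ((X.T ^ n) x') = 0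

/-- Isometric (equicontinuous) extension. -/
def Factor.Isometric {X Y : Sys} (π : Factor X Y) : Prop :=
  ∀ ε > 0, ∃ δ > 0, ∀ x x' : X.pt, π.map x = π.map x' → dist x x' < δ →
    ∀ n : ℤ, dist ((X.T ^ n) x) ((X.T ^ n) x') < ε

/-- A transfinite tower indexed by a well ordered set I with least and greatest element: it
starts with the one-point system, every successor step is a proximal or an isometric extension,
and at limits the system is the inverse limit of the previous ones (the projections, which are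
surjective and compatible, separate the points). -/
structure Tower (I : Type) [LinearOrder I] [WellFoundedLT I] [OrderBot I] [OrderTop I] where
  sys : I → Sys
  proj : ∀ i j : I, i ≤ j → Factor (sys j) (sys i)
  proj_refl : ∀ (i : I) (x : (sys i).pt), (proj i i le_rfl).map x = x
  proj_trans : ∀ (i j k : I) (hij : i ≤ j) (hjk : j ≤ k) (x : (sys k).pt),
    (proj i j hij).map ((proj j k hjk).map x) = (proj i k (hij.trans hjk)).map x
  bot : Subsingleton (sys ⊥).pt
  succ : ∀ (i j : I) (h : i ⋖ j), (proj i j h.le).Proximal ∨ (proj i j h.le).Isometric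
  lim : ∀ j : I, j ≠ ⊥ → (∀ i, ¬ i ⋖ j) → ∀ x x' : (sys j).pt,
    (∀ (i : I) (h : i < j), (proj i j h.le).map x = (proj i j h.le).map x') → x = x'

/-- PI systems: minimal systems with a proximal (minimal) extension which is the top of a
tower. -/
def Sys.IsPI (X : Sys) : Prop :=
  X.Minimal ∧ ∃ (I : Type) (_ : LinearOrder I) (_ : WellFoundedLT I) (_ : OrderBot I)
    (_ : OrderTop I) (τ : Tower I) (θ : Factor (τ.sys ⊤) X), (τ.sys ⊤).Minimal ∧ θ.Proximal

/-- The orbit closure of z is a minimal subsystem. -/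
def IsMinimalPoint {Z : Type} [TopologicalSpace Z] (S : Z ≃ₜ Z) (z : Z) : Prop :=
  ∀ w ∈ closure (Set.range fun n : ℤ => (S ^ n) z),
    closure (Set.range fun n : ℤ => (S ^ n) w) = closure (Set.range fun n : ℤ => (S ^ n) z)

/-- The homeomorphism T × T² of X × X. -/
def Sys.prodSq (X : Sys) : X.pt × X.pt ≃ₜ X.pt × X.pt := X.T.prodCongr (X.T ^ 2)

/-- The homeomorphism T^(k 1) × ... × T^(k d) of Z^d. -/
def prodPowers {Z : Type} [TopologicalSpace Z] (T : Z ≃ₜ Z) {d : ℕ} (k : Fin d → ℤ) :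
    (Fin d → Z) ≃ₜ (Fin d → Z) :=
  Homeomorph.piCongrRight fun i => T ^ k i

/-! ### Construction -/

open Pool.Agent.KS6_65.MP

/-- The one-point system. -/
def pointSys : Sys where
  pt := PUnit
  T := Homeomorph.refl _

/-- The rotation of the circle R/Z by α. -/
noncomputable def rotSys (α : B) : Sys where
  pt := B
  T := Homeomorph.addRight α

lemma zpow_cocycle {Z : Type} [TopologicalSpace Z] (T : Z ≃ₜ Z) (φ : Z → B) (α : B)
    (h : ∀ x, φ (T x) = φ x + α) (n : ℤ) : ∀ x, φ ((T ^ n) x) = φ x + n • α := by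
  induction n using Int.induction_on with
  | zero => intro x; simp
  | succ n ih =>
    intro x
    rw [zpow_add_one, Homeomorph.mul_apply, ih, h, add_zsmul, one_zsmul]
    abel
  | pred n ih =>
    intro x
    have h1 : φ ((T⁻¹) x) = φ x - α := by
      have h2 := h ((T⁻¹) x)
      rw [Homeomorph.inv_apply, Homeomorph.apply_symm_apply] at h2
      rw [Homeomorph.inv_apply, h2]
      abel
    rw [zpow_sub_one, Homeomorph.mul_apply, ih, h1, sub_zsmul, one_zsmul]
    abel

lemma zpow_prodCongr {Z : Type} [TopologicalSpace Z] (S T : Z ≃ₜ Z) (n : ℤ) :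
    ∀ p : Z × Z, ((S.prodCongr T) ^ n) p = ((S ^ n) p.1, (T ^ n) p.2) := by
  induction n using Int.induction_on with
  | zero => intro x; simp
  | succ n ih =>
    intro x
    rw [zpow_add_one, Homeomorph.mul_apply, ih, zpow_add_one, Homeomorph.mul_apply,
      zpow_add_one, Homeomorph.mul_apply]
    rfl
  | pred n ih =>
    intro x
    rw [zpow_sub_one, Homeomorph.mul_apply, ih, zpow_sub_one, Homeomorph.mul_apply,
      zpow_sub_one, Homeomorph.mul_apply]
    rfl


/-- The homeomorphism attached to a pair in the closure. -/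
noncomputable def homeo {α : B} {F : C(E, E) × C(E, E)} (hF : F ∈ FF α) : E ≃ₜ E where
  toFun := F.1
  invFun := F.2
  left_inv x := (FF_props hF x).2.1
  right_inv x := (FF_props hF x).1
  continuous_toFun := F.1.continuous
  continuous_invFun := F.2.continuous

noncomputable def genSys {α : B} {F : C(E, E) × C(E, E)} (hF : F ∈ FF α) : Sys where
  pt := E
  T := homeo hF

lemma homeo_pow {α : B} {F : C(E, E) × C(E, E)} (hF : F ∈ FF α) (m : ℕ) (x : E) :
    ((homeo hF) ^ (m : ℤ)) x = (F.1)^[m] x := by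
  rw [zpow_natCast]
  induction m generalizing x with
  | zero => rfl
  | succ m ih =>
    rw [pow_succ, Homeomorph.mul_apply, ih, Function.iterate_succ_apply]
    rfl

lemma homeo_fst {α : B} {F : C(E, E) × C(E, E)} (hF : F ∈ FF α) (n : ℤ) (x : E) :
    (((homeo hF) ^ n) x).1 = x.1 + n • α :=
  zpow_cocycle (homeo hF) Prod.fst α (fun x => (FF_props hF x).2.2) n x

def Factor.refl (X : Sys) : Factor X X := ⟨id, continuous_id, Function.surjective_id, fun _ => rfl⟩

def toPoint (X : Sys) : Factor X pointSys :=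
  ⟨fun _ => PUnit.unit, continuous_const, fun _ => ⟨Classical.arbitrary _, rfl⟩, fun _ => rfl⟩

noncomputable def toRot {α : B} {F : C(E, E) × C(E, E)} (hF : F ∈ FF α) :
    Factor (genSys hF) (rotSys α) :=
  ⟨fun x : E => x.1, continuous_fst, fun y => ⟨(y, 1), rfl⟩, fun x => (FF_props hF x).2.2⟩

lemma zpow_sq {Z : Type} [TopologicalSpace Z] (T : Z ≃ₜ Z) (n : ℤ) (p : Z × Z) :
    ((T.prodCongr (T ^ 2)) ^ n) p = ((T ^ n) p.1, (T ^ (2 * n)) p.2) := by
  rw [zpow_prodCongr, zpow_mul]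
  rfl

/-- The saturated closed sets. -/
def W (p : E × E) : Set (E × E) := {q | q.2.1 - p.2.1 = 2 • (q.1.1 - p.1.1)}

lemma isClosed_W (p : E × E) : IsClosed (W p) :=
  isClosed_eq (by fun_prop) (by fun_prop)

lemma W_eq {p q : E × E} (h : q ∈ W p) : W q = W p := by
  have h' : q.2.1 - p.2.1 = 2 • (q.1.1 - p.1.1) := h
  ext r
  show r.2.1 - q.2.1 = 2 • (r.1.1 - q.1.1) ↔ r.2.1 - p.2.1 = 2 • (r.1.1 - p.1.1)
  have e1 : r.2.1 - p.2.1 = (r.2.1 - q.2.1) + (q.2.1 - p.2.1) := by abel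
  have e2 : 2 • (r.1.1 - p.1.1) = 2 • (r.1.1 - q.1.1) + 2 • (q.1.1 - p.1.1) := by
    rw [← nsmul_add]; congr 1; abel
  rw [e1, e2, h']
  exact (add_left_inj _).symm

section generic

variable {α : B} {F : C(E, E) × C(E, E)} (hF : F ∈ FF α)

lemma mem_W_orbit (n : ℤ) (p : E × E) :
    (((homeo hF).prodCongr ((homeo hF) ^ 2)) ^ n) p ∈ W p := by
  rw [zpow_sq]
  show (((homeo hF) ^ (2 * n)) p.2).1 - p.2.1 = 2 • ((((homeo hF) ^ n) p.1).1 - p.1.1)
  rw [homeo_fst, homeo_fst, add_sub_cancel_left, add_sub_cancel_left, mul_zsmul]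
  rw [two_nsmul, two_zsmul]

lemma orbit_closure (hD : ∀ n : ℕ, F ∈ UD (1 / ((n : ℝ) + 1))) (p : E × E) :
    closure (Set.range fun n : ℤ => (((homeo hF).prodCongr ((homeo hF) ^ 2)) ^ n) p) = W p := by
  apply Set.Subset.antisymm
  · refine closure_minimal ?_ (isClosed_W p)
    rintro _ ⟨n, rfl⟩
    exact mem_W_orbit hF n p
  · intro q hq
    rw [Metric.mem_closure_iff]
    intro ε hε
    obtain ⟨n, hn⟩ := exists_nat_one_div_lt hε
    obtain ⟨m, hm1, hm2⟩ := hD n (p, q) hq
    refine ⟨_, ⟨(m : ℤ), rfl⟩, ?_⟩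
    simp only [zpow_sq]
    have e2 : ((homeo hF) ^ (2 * (m : ℤ))) p.2 = (F.1)^[2 * m] p.2 := by
      have := homeo_pow hF (2 * m) p.2
      push_cast at this
      exact this
    rw [homeo_pow, e2, dist_comm, Prod.dist_eq]
    exact max_lt (hm1.trans hn) (hm2.trans hn)

lemma gen_minimalPoint (hD : ∀ n : ℕ, F ∈ UD (1 / ((n : ℝ) + 1))) (p : E × E) :
    IsMinimalPoint ((homeo hF).prodCongr ((homeo hF) ^ 2)) p := by
  intro w hw
  rw [orbit_closure hF hD] at hw ⊢
  rw [orbit_closure hF hD]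
  exact W_eq hw

lemma gen_minimal (hD : ∀ n : ℕ, F ∈ UD (1 / ((n : ℝ) + 1))) (x : E) :
    Dense (Set.range fun n : ℤ => ((homeo hF) ^ n) x) := by
  rw [Metric.dense_iff]
  intro y r hr
  obtain ⟨n, hn⟩ := exists_nat_one_div_lt hr
  have hq : ((y, (x.1 + 2 • (y.1 - x.1), (1 : Circle))) : E × E) ∈ W (x, x) := by
    show (x.1 + 2 • (y.1 - x.1)) - x.1 = 2 • (y.1 - x.1)
    rw [add_sub_cancel_left]
  obtain ⟨m, hm1, hm2⟩ := hD n ((x, x), (y, (x.1 + 2 • (y.1 - x.1), (1 : Circle)))) hq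
  refine ⟨((homeo hF) ^ (m : ℤ)) x, ?_, ⟨m, rfl⟩⟩
  rw [homeo_pow, Metric.mem_ball]
  exact hm1.trans hn

lemma gen_proximal (hP : ∀ n : ℕ, F ∈ UP (1 / ((n : ℝ) + 1))) (x x' : E) (hx : x.1 = x'.1) :
    ⨅ n : ℤ, dist (((homeo hF) ^ n) x) (((homeo hF) ^ n) x') = 0 := by
  have hb : BddBelow (Set.range fun n : ℤ => dist (((homeo hF) ^ n) x) (((homeo hF) ^ n) x')) :=
    ⟨0, by rintro _ ⟨n, rfl⟩; exact dist_nonneg⟩
  refine le_antisymm ?_ (le_ciInf fun n => dist_nonneg)
  refine le_of_forall_pos_lt_add fun ε hε => ?_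
  obtain ⟨n, hn⟩ := exists_nat_one_div_lt hε
  obtain ⟨m, hm⟩ := hP n (x, x') hx
  refine lt_of_le_of_lt (ciInf_le hb (m : ℤ)) ?_
  simp only [homeo_pow, zero_add]
  exact lt_trans hm hn

lemma refl_proximal (X : Sys) : (Factor.refl X).Proximal := by
  intro x x' h
  have h' : x = x' := h
  subst h'
  simp

lemma dist_rot (α : B) (n : ℤ) (x y : B) :
    dist (((Homeomorph.addRight α) ^ n) x) (((Homeomorph.addRight α) ^ n) y) = dist x y := by
  have h1 : ∀ z : B, ((Homeomorph.addRight α) ^ n) z = z + n • α := fun z =>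
    zpow_cocycle (Homeomorph.addRight α) id α (fun _ => rfl) n z
  rw [h1, h1, dist_add_right]

lemma toPoint_isometric (α : B) : (toPoint (rotSys α)).Isometric := by
  intro ε hε
  exact ⟨ε, hε, fun x x' _ hd n => lt_of_eq_of_lt (dist_rot α n x x') hd⟩

lemma rot_equicont (α : B) : (rotSys α).Equicont := by
  intro x
  rw [Metric.equicontinuousAt_iff]
  intro ε hε
  refine ⟨ε, hε, fun y hy n => ?_⟩
  rw [dist_comm] at hy
  exact lt_of_eq_of_lt (dist_rot α n x y) hy

/-- The three levels of the tower. -/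
noncomputable def lev : Fin 3 → Sys
  | 0 => pointSys
  | 1 => rotSys α
  | 2 => genSys hF

noncomputable def levProj : ∀ i j : Fin 3, i ≤ j → Factor (lev hF j) (lev hF i)
  | 0, j, _ => toPoint (lev hF j)
  | 1, 1, _ => Factor.refl _
  | 1, 2, _ => toRot hF
  | 2, 2, _ => Factor.refl _
  | 1, 0, h => absurd h (by decide)
  | 2, 0, h => absurd h (by decide)
  | 2, 1, h => absurd h (by decide)

noncomputable def tower (hP : ∀ n : ℕ, F ∈ UP (1 / ((n : ℝ) + 1))) : Tower (Fin 3) where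
  sys := lev hF
  proj := levProj hF
  proj_refl
    | 0, _ => rfl
    | 1, _ => rfl
    | 2, _ => rfl
  proj_trans
    | 0, _, _, _, _, _ => rfl
    | 1, 1, 1, _, _, _ => rfl
    | 1, 1, 2, _, _, _ => rfl
    | 1, 2, 2, _, _, _ => rfl
    | 2, 2, 2, _, _, _ => rfl
    | 1, 0, _, h, _, _ => absurd h (by decide)
    | 2, 0, _, h, _, _ => absurd h (by decide)
    | 2, 1, _, h, _, _ => absurd h (by decide)
    | 1, 1, 0, _, h, _ => absurd h (by decide)
    | 1, 2, 0, _, h, _ => absurd h (by decide)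
    | 1, 2, 1, _, h, _ => absurd h (by decide)
    | 2, 2, 0, _, h, _ => absurd h (by decide)
    | 2, 2, 1, _, h, _ => absurd h (by decide)
  bot := by
    show Subsingleton PUnit
    infer_instance
  succ
    | 0, 0, h => absurd h.lt (by decide)
    | 0, 1, _ => Or.inr (toPoint_isometric α)
    | 0, 2, h => absurd (by decide : (1 : Fin 3) < 2) (h.2 (by decide : (0 : Fin 3) < 1))
    | 1, 0, h => absurd h.lt (by decide)
    | 1, 1, h => absurd h.lt (by decide)
    | 1, 2, _ => Or.inl (gen_proximal hF hP)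
    | 2, 0, h => absurd h.lt (by decide)
    | 2, 1, h => absurd h.lt (by decide)
    | 2, 2, h => absurd h.lt (by decide)
  lim
    | 0, hj, _, _, _, _ => absurd rfl hj
    | 1, _, hl, _, _, _ => absurd ⟨by decide, by decide⟩ (hl 0)
    | 2, _, hl, _, _, _ => absurd ⟨by decide, by decide⟩ (hl 1)

end generic

/-! ### General exponents -/

lemma prodPow_zpow {Z : Type} [TopologicalSpace Z] (T : Z ≃ₜ Z) {d : ℕ} (k : Fin d → ℤ) (n : ℤ) :
    ∀ (p : Fin d → Z) (i : Fin d), ((prodPowers T k) ^ n) p i = (T ^ (k i * n)) (p i) := by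
  induction n using Int.induction_on with
  | zero => intro p i; simp
  | succ n ih =>
    intro p i
    rw [zpow_add_one, Homeomorph.mul_apply, ih, mul_add, zpow_add, Homeomorph.mul_apply, mul_one]
    rfl
  | pred n ih =>
    intro p i
    rw [zpow_sub_one, Homeomorph.mul_apply, ih, mul_sub, mul_one, sub_eq_add_neg, zpow_add,
      Homeomorph.mul_apply, zpow_neg]
    rfl

lemma homeo_itz {α : B} {F : C(E, E) × C(E, E)} (hF : F ∈ FF α) (n : ℤ) (x : E) :
    ((homeo hF) ^ n) x = itz F n x := by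
  unfold itz
  split_ifs with h0
  · have := homeo_pow hF n.toNat x
    rwa [Int.toNat_of_nonneg h0] at this
  · have h1 : ∀ m : ℕ, ∀ x : E, (((homeo hF)⁻¹) ^ m) x = (F.2)^[m] x := by
      intro m
      induction m with
      | zero => intro x; rfl
      | succ m ih =>
        intro x
        rw [pow_succ', Homeomorph.mul_apply, ih, Function.iterate_succ_apply']
        rfl
    rw [← h1, inv_pow, ← zpow_natCast, ← zpow_neg, Int.toNat_of_nonneg (by omega), neg_neg]

/-- The saturated closed sets for the exponents `k`. -/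
def WK {d : ℕ} (k : Fin d → ℤ) (p : Fin d → E) : Set (Fin d → E) :=
  {q | ∃ t : B, ∀ i, (q i).1 = (p i).1 + k i • t}

lemma isClosed_WK {d : ℕ} (k : Fin d → ℤ) (p : Fin d → E) : IsClosed (WK k p) := by
  have h1 : IsClosed {x : (Fin d → E) × B | ∀ i, (x.1 i).1 = (p i).1 + k i • x.2} := by
    have e : {x : (Fin d → E) × B | ∀ i, (x.1 i).1 = (p i).1 + k i • x.2} =
        ⋂ i, {x : (Fin d → E) × B | (x.1 i).1 = (p i).1 + k i • x.2} := by
      ext x; simp
    rw [e]
    refine isClosed_iInter fun i => isClosed_eq ?_ ?_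
    · exact continuous_fst.comp ((continuous_apply i).comp continuous_fst)
    · exact continuous_const.add ((continuous_zsmul (k i)).comp continuous_snd)
  have h2 : WK k p = Prod.fst '' {x : (Fin d → E) × B | ∀ i, (x.1 i).1 = (p i).1 + k i • x.2} := by
    ext q
    constructor
    · rintro ⟨t, ht⟩
      exact ⟨(q, t), ht, rfl⟩
    · rintro ⟨⟨q', t⟩, ht, rfl⟩
      exact ⟨t, ht⟩
  rw [h2]
  exact isClosedMap_fst_of_compactSpace _ h1

lemma WK_eq {d : ℕ} {k : Fin d → ℤ} {p q : Fin d → E} (h : q ∈ WK k p) : WK k q = WK k p := by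
  obtain ⟨t, ht⟩ := h
  ext r
  constructor
  · rintro ⟨u, hu⟩
    refine ⟨t + u, fun i => ?_⟩
    rw [hu, ht, zsmul_add, add_assoc]
  · rintro ⟨u, hu⟩
    refine ⟨u - t, fun i => ?_⟩
    rw [hu, ht, zsmul_sub]
    abel

section genericK

variable {α : B} {F : C(E, E) × C(E, E)} (hF : F ∈ FF α)

lemma orbit_closureK {d : ℕ} {k : Fin d → ℤ} (hK : ∀ n : ℕ, F ∈ UK k (1 / ((n : ℝ) + 1)))
    (p : Fin d → E) :
    closure (Set.range fun n : ℤ => ((prodPowers (homeo hF) k) ^ n) p) = WK k p := by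
  apply Set.Subset.antisymm
  · refine closure_minimal ?_ (isClosed_WK k p)
    rintro _ ⟨n, rfl⟩
    refine ⟨n • α, fun i => ?_⟩
    show (((prodPowers (homeo hF) k) ^ n) p i).1 = _
    rw [prodPow_zpow, homeo_fst, mul_smul]
  · rintro q ⟨t, ht⟩
    rw [Metric.mem_closure_iff]
    intro ε hε
    obtain ⟨n, hn⟩ := exists_nat_one_div_lt hε
    obtain ⟨m, hm⟩ := hK n (p, t, fun i => (q i).2) (mem_univ _)
    refine ⟨_, ⟨(m : ℤ), rfl⟩, ?_⟩
    rw [dist_pi_lt_iff hε]
    intro i
    have e : (((prodPowers (homeo hF) k) ^ (m : ℤ)) p) i = itz F (k i * m) (p i) := by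
      rw [prodPow_zpow]
      exact homeo_itz hF _ _
    show dist (q i) ((((prodPowers (homeo hF) k) ^ (m : ℤ)) p) i) < ε
    rw [e, dist_comm]
    have h2 := hm i
    have e2 : q i = ((p i).1 + k i • t, (q i).2) := by
      rw [← ht i]
    rw [e2]
    exact h2.trans hn

lemma gen_minimalPointK {d : ℕ} {k : Fin d → ℤ} (hK : ∀ n : ℕ, F ∈ UK k (1 / ((n : ℝ) + 1)))
    (p : Fin d → E) : IsMinimalPoint (prodPowers (homeo hF) k) p := by
  intro w hw
  have h1 := orbit_closureK hF hK p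
  have h2 := orbit_closureK hF hK w
  rw [h1] at hw ⊢
  rw [h2]
  exact WK_eq hw

end genericK

lemma UD_of_UK {F : C(E, E) × C(E, E)} {ε : ℝ} (h : F ∈ UK ![(1 : ℤ), 2] ε) : F ∈ UD ε := by
  rintro ⟨⟨p₁, p₂⟩, ⟨q₁, q₂⟩⟩ hq
  have hq' : q₂.1 - p₂.1 = 2 • (q₁.1 - p₁.1) := hq
  obtain ⟨m, hm⟩ := h (![p₁, p₂], q₁.1 - p₁.1, ![q₁.2, q₂.2]) (mem_univ _)
  have h0 := hm 0
  have h1 := hm 1
  refine ⟨m, ?_, ?_⟩
  · have e1 : itz F (![(1 : ℤ), 2] 0 * m) (![p₁, p₂] 0) = (F.1)^[m] p₁ := by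
      simp [itz]
    have e2 : ((((![p₁, p₂] : Fin 2 → E) 0).1 + (![(1 : ℤ), 2] 0) • (q₁.1 - p₁.1),
        (![q₁.2, q₂.2] : Fin 2 → Circle) 0) : E) = q₁ := by
      simp
    have h0' : dist (itz F (![(1 : ℤ), 2] 0 * m) (![p₁, p₂] 0))
      ((((![p₁, p₂] : Fin 2 → E) 0).1 + (![(1 : ℤ), 2] 0) • (q₁.1 - p₁.1),
        (![q₁.2, q₂.2] : Fin 2 → Circle) 0) : E) < ε := h0
    rw [e1, e2] at h0'
    exact h0'
  · have e1 : itz F (![(1 : ℤ), 2] 1 * m) (![p₁, p₂] 1) = (F.1)^[2 * m] p₂ := by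
      have h3 : (0 : ℤ) ≤ 2 * m := by positivity
      have h4 : ((2 : ℤ) * m).toNat = 2 * m := by omega
      simp [itz, h4]
    have e2 : ((((![p₁, p₂] : Fin 2 → E) 1).1 + (![(1 : ℤ), 2] 1) • (q₁.1 - p₁.1),
        (![q₁.2, q₂.2] : Fin 2 → Circle) 1) : E) = q₂ := by
      have h5 : (2 : ℤ) • (q₁.1 - p₁.1) = q₂.1 - p₂.1 := by
        rw [hq', two_zsmul, two_nsmul]
      show (p₂.1 + (2 : ℤ) • (q₁.1 - p₁.1), q₂.2) = q₂
      rw [h5, add_sub_cancel]
    have h1' : dist (itz F (![(1 : ℤ), 2] 1 * m) (![p₁, p₂] 1))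
      ((((![p₁, p₂] : Fin 2 → E) 1).1 + (![(1 : ℤ), 2] 1) • (q₁.1 - p₁.1),
        (![q₁.2, q₂.2] : Fin 2 → Circle) 1) : E) < ε := h1
    rw [e1, e2] at h1'
    exact h1'

/-- For every irrational `a` there is a minimal PI system `X` with an open, proximal, non-injective
factor map onto the (equicontinuous) rotation by `a` of the circle, such that for ALL tuples
`k 1, ..., k d` of distinct nonzero integers EVERY point of `X^d` is a minimal point of
`T^(k 1) × ... × T^(k d)`; in particular every point of `X × X`, diagonal or not, is a minimal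
point of `T × T²`. -/
theorem result (a : ℝ) (ha : Irrational a) :
    ∃ (X : Sys) (π : Factor X (rotSys (a : AddCircle (1 : ℝ)))),
      X.IsPI ∧ (rotSys (a : AddCircle (1 : ℝ))).Equicont ∧ IsOpenMap π.map ∧
      π.Proximal ∧ ¬ Function.Injective π.map ∧
      (∀ (d : ℕ) (k : Fin d → ℤ), (∀ i, k i ≠ 0) → Function.Injective k →
        ∀ p : Fin d → X.pt, IsMinimalPoint (prodPowers X.T k) p) ∧
      ∀ p : X.pt × X.pt, IsMinimalPoint X.prodSq p := by
  obtain ⟨F, hF, hP, hK⟩ := exists_genericK ha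
  have hD : ∀ n : ℕ, F ∈ UD (1 / ((n : ℝ) + 1)) := fun n =>
    UD_of_UK (hK 2 ![(1 : ℤ), 2] (by intro i; fin_cases i <;> simp) (by
      intro i j hij
      fin_cases i <;> fin_cases j <;> simp_all) n)
  refine ⟨genSys hF, toRot hF, ⟨gen_minimal hF hD, Fin 3, inferInstance, inferInstance,
    inferInstance, inferInstance, tower hF hP, Factor.refl _, gen_minimal hF hD,
    refl_proximal _⟩, rot_equicont _, ?_, gen_proximal hF hP, ?_,
    fun d k h0 h1 p => gen_minimalPointK hF (hK d k h0 h1) p,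
    fun p => gen_minimalPoint hF hD p⟩
  · exact isOpenMap_fst
  · intro h
    have h1 : ((0 : B), (1 : Circle)) = ((0 : B), (-1 : Circle)) := h rfl
    have h2 : (1 : Circle) = -1 := (Prod.mk.inj h1).2
    exact Circle.neg_ne_self 1 h2.symm

end Pool.Agent.Results.MP_20b9c8_an.AllExponents
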